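import Pool.Agent.H55.Cos.Stmts

namespace Pool.Agent.H55.Cos

open Set Filter Topology

/-- zero-dimensional sets are transported by the embedding `io k` -/
theorem pcd_zd (hE : PCEStmt) {I : Set Idx} (hI : none ∈ I) {r : ℕ} (k : Fin r → ℤ)
    (U : Fin r → TopologicalSpace.Clopens XX) (hk : ∀ j, k j ≠ 0)
    (hU : ∀ i j, i ≠ j → Disjoint (U i : Set XX) (U j)) (S : Set (Fin r → XX))
    (hS : @ZD (Fin r → XX) (tp I r) S) :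
    @ZD GG (TT I) (io k '' (S ∩ {z | ∀ j, z j ∈ U j})) := by
  obtain ⟨hinj, hcont, hopen⟩ := hE I hI r k U hk hU
  rintro _ ⟨z, ⟨hzS, hzP⟩, rfl⟩ O hO hzO
  obtain ⟨A, B, hA, hB, hzA, hAO, hSAB, hABS⟩ := hS z hzS (io k ⁻¹' O) (hcont O hO) hzO
  obtain ⟨A', hA', hAA⟩ := hopen A hA
  obtain ⟨B', hB', hBB⟩ := hopen B hB
  refine ⟨A', B', hA', hB', (hAA z hzP).1 hzA, ?_, ?_, ?_⟩
  · rintro _ ⟨h1, w, ⟨hwS, hwP⟩, rfl⟩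
    exact hAO ⟨(hAA w hwP).2 h1, hwS⟩
  · rintro _ ⟨w, ⟨hwS, hwP⟩, rfl⟩
    rcases hSAB hwS with h1 | h1
    · exact Or.inl ((hAA w hwP).1 h1)
    · exact Or.inr ((hBB w hwP).1 h1)
  · rw [Set.eq_empty_iff_forall_notMem]
    rintro _ ⟨⟨h1, h2⟩, w, ⟨hwS, hwP⟩, rfl⟩
    have h3 : w ∈ A ∩ B ∩ S := ⟨⟨(hAA w hwP).2 h1, (hBB w hwP).2 h2⟩, hwS⟩
    rw [hABS] at h3
    exact h3

theorem cos_pcd (hK : KDEStmt) (hE : PCEStmt) (hL : PCLStmt) : PCDStmt := by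
  intro I hIc hI r k U hk hU
  obtain ⟨K, hK1, hK2, hK3⟩ := hK I hIc r
  obtain ⟨hinj, hcont, hopen⟩ := hE I hI r k U hk hU
  refine ⟨fun n => io k '' (K n ∩ {z | ∀ j, z j ∈ U j}), fun n => ?_, fun n => ?_, fun n => ?_, ?_⟩
  · have h1 : @IsOpen (Fin r → XX) (tp I r) (K n)ᶜ := (@isOpen_compl_iff _ _ (tp I r)).2 (hK1 n)
    obtain ⟨A', hA', hAA⟩ := hopen _ h1
    have h2 : io k '' (K n ∩ {z | ∀ j, z j ∈ U j}) = pc k U ∩ A'ᶜ := by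
      ext g
      constructor
      · rintro ⟨z, ⟨hzK, hzP⟩, rfl⟩
        exact ⟨⟨z, hzP, rfl⟩, fun h3 => (hAA z hzP).2 h3 hzK⟩
      · rintro ⟨⟨z, hzP, rfl⟩, h3⟩
        refine ⟨z, ⟨?_, hzP⟩, rfl⟩
        by_contra h4
        exact h3 ((hAA z hzP).1 h4)
    show @IsClosed GG (TT I) (io k '' (K n ∩ {z | ∀ j, z j ∈ U j}))
    rw [h2]
    have h3 : @IsClosed GG (TT I) A'ᶜ := by
      rw [← @isOpen_compl_iff GG A'ᶜ (TT I), compl_compl]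
      exact hA'
    exact @IsClosed.inter GG _ _ (TT I) (hL I hI r k U) h3
  · rintro _ ⟨z, ⟨_, hzP⟩, rfl⟩
    exact ⟨z, hzP, rfl⟩
  · exact pcd_zd hE hI k U hk hU _ (hK2 n)
  · have h1 : pc k U \ ⋃ n, io k '' (K n ∩ {z | ∀ j, z j ∈ U j})
        = io k '' ((⋃ n, K n)ᶜ ∩ {z | ∀ j, z j ∈ U j}) := by
      ext g
      constructor
      · rintro ⟨⟨z, hzP, rfl⟩, h3⟩
        refine ⟨z, ⟨fun h4 => h3 ?_, hzP⟩, rfl⟩
        obtain ⟨n, hn⟩ := mem_iUnion.1 h4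
        exact mem_iUnion.2 ⟨n, z, ⟨hn, hzP⟩, rfl⟩
      · rintro ⟨z, ⟨hzK, hzP⟩, rfl⟩
        refine ⟨⟨z, hzP, rfl⟩, fun h3 => hzK ?_⟩
        obtain ⟨n, w, ⟨hwK, hwP⟩, hw⟩ := mem_iUnion.1 h3
        have h4 := hinj w z hwP hzP hw
        subst h4
        exact mem_iUnion.2 ⟨n, hwK⟩
    rw [h1]
    exact pcd_zd hE hI k U hk hU _ hK3

end Pool.Agent.H55.Cos
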