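import Pool.Agent.H55.Cos.Stmts

namespace Pool.Agent.H55.Cos

open Set Filter Topology

/-- characteristic functions of clopen sets are continuous for the coarse topology -/
theorem pcl_ch (W : TopologicalSpace.Clopens XX) : Continuous (ch W none) := by
  classical
  have h : ch W none = fun z => if z ∈ (W : Set XX) then (1 : ℝ) else 0 := by
    funext z
    unfold ch phi
    rfl
  rw [h]
  refine continuous_iff_continuousAt.2 fun z => ?_
  by_cases hz : z ∈ (W : Set XX)
  · have h1 : (W : Set XX) ∈ 𝓝 z := W.isClopen.2.mem_nhds hz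
    refine ContinuousAt.congr (f := fun _ => (1 : ℝ)) continuousAt_const ?_
    filter_upwards [h1] with y hy
    rw [if_pos hy]
  · have h1 : (W : Set XX)ᶜ ∈ 𝓝 z := W.isClopen.compl.2.mem_nhds hz
    refine ContinuousAt.congr (f := fun _ => (0 : ℝ)) continuousAt_const ?_
    filter_upwards [h1] with y hy
    rw [if_neg hy]

theorem TT_mono {I J : Set Idx} (h : I ⊆ J) : TT J ≤ TT I := by
  unfold TT
  refine le_iInf fun U => le_iInf fun i => le_iInf fun hi => ?_
  exact (iInf_le _ U).trans ((iInf_le _ i).trans (iInf_le _ (h hi)))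

theorem pcl_io {r : ℕ} (k : Fin r → ℤ) :
    @Continuous (Fin r → XX) GG _ (TT {none}) (io k) := by
  unfold TT
  refine continuous_iInf_rng.2 fun U => continuous_iInf_rng.2 fun i => continuous_iInf_rng.2
    fun hi => continuous_induced_rng.2 ?_
  rw [mem_singleton_iff] at hi
  subst hi
  have h : (⇑(hm U none) ∘ io k) = fun z => ∑ j, (k j : ℝ) * ch U none (z j) := by
    funext z
    exact hm_io U none k z
  rw [h]
  exact continuous_finsetSum _ fun j _ =>
    continuous_const.mul ((pcl_ch U).comp (continuous_apply j))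

theorem cos_pcl (h : GTGStmt) : PCLStmt := by
  intro I hI r k U
  have hT2 : @T2Space GG (TT {none}) := h.2 {none} (mem_singleton _)
  have h1 : IsCompact {z : Fin r → XX | ∀ j, z j ∈ U j} := by
    have : {z : Fin r → XX | ∀ j, z j ∈ U j} = Set.pi univ (fun j => (U j : Set XX)) := by
      ext z
      simp
    rw [this]
    exact isCompact_univ_pi fun j => (U j).isClopen.1.isCompact
  have h2 : @IsCompact GG (TT {none}) (pc k U) := by
    unfold pc
    exact @IsCompact.image _ _ _ (TT {none}) _ _ h1 (pcl_io k)
  have h3 : @IsClosed GG (TT {none}) (pc k U) := @IsCompact.isClosed GG (TT {none}) hT2 _ h2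
  exact IsClosed.mono h3 (TT_mono (singleton_subset_iff.2 hI))

end Pool.Agent.H55.Cos
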